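import Pool.Agent.Helper30_SkewP4.Stmts

/-!
# SKEW, modules JOP and TKO (MP_d1c004_ag)
-/

set_option autoImplicit false

open scoped TensorProduct

namespace Pool.Agent.SkewP4.H51

open MvPolynomial

/-- the operator multiplying the monomial `m` by `g m` -/
noncomputable def diag (g : (Ix →₀ ℕ) → ℂ) : R →ₗ[ℂ] R :=
  (basisMonomials Ix ℂ).constr ℂ (fun m => g m • (monomial m 1 : R))

theorem diag_monomial (g : (Ix →₀ ℕ) → ℂ) (m : Ix →₀ ℕ) (a : ℂ) :
    diag g (monomial m a) = g m • (monomial m a : R) := by
  have h : (monomial m a : R) = a • (basisMonomials Ix ℂ) m := by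
    rw [coe_basisMonomials, smul_monomial, smul_eq_mul, mul_one]
  have h2 : diag g ((basisMonomials Ix ℂ) m) = g m • (monomial m 1 : R) := by
    unfold diag
    rw [Module.Basis.constr_basis]
  rw [h, map_smul, h2, coe_basisMonomials, smul_comm]

/-- linear maps agree if they agree on monomials -/
theorem lin_ext {f g : R →ₗ[ℂ] R} (h : ∀ m a, f (monomial m a) = g (monomial m a)) (p : R) :
    f p = g p := by
  induction p using MvPolynomial.induction_on' with
  | monomial m a => exact h m a
  | add p q hp hq => rw [map_add, map_add, hp, hq]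

/-- degree in `x` -/
def degx (m : Ix →₀ ℕ) : ℕ := ∑ j : Fin 5, m (Sum.inl j)

/-- degree in `y` -/
def degy (m : Ix →₀ ℕ) : ℕ := ∑ j : Fin 5, m (Sum.inr j)

theorem Nx_monomial (m : Ix →₀ ℕ) (a : ℂ) :
    Nx (monomial m a) = (degx m : ℂ) • (monomial m a : R) := by
  unfold Nx degx
  simp only [LinearMap.sum_apply, LinearMap.comp_apply, LinearMap.mulLeft_apply,
    Derivation.coeFn_coe, X_mul_pderiv_monomial]
  rw [Nat.cast_sum, Finset.sum_smul]
  apply Finset.sum_congr rfl
  intro j _
  rw [Nat.cast_smul_eq_nsmul]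

theorem Ny_monomial (m : Ix →₀ ℕ) (a : ℂ) :
    Ny (monomial m a) = (degy m : ℂ) • (monomial m a : R) := by
  unfold Ny degy
  simp only [LinearMap.sum_apply, LinearMap.comp_apply, LinearMap.mulLeft_apply,
    Derivation.coeFn_coe, X_mul_pderiv_monomial]
  rw [Nat.cast_sum, Finset.sum_smul]
  apply Finset.sum_congr rfl
  intro j _
  rw [Nat.cast_smul_eq_nsmul]

/-- inverse of `Nx + c` -/
noncomputable def Jx (c : ℕ) : R →ₗ[ℂ] R := diag fun m => ((degx m : ℂ) + c)⁻¹

/-- inverse of `Ny + c` -/
noncomputable def Jy (c : ℕ) : R →ₗ[ℂ] R := diag fun m => ((degy m : ℂ) + c)⁻¹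

theorem add_ne (d c : ℕ) (hc : 1 ≤ c) : (d : ℂ) + c ≠ 0 := by
  rw [← Nat.cast_add, Nat.cast_ne_zero]
  omega

theorem jop : JopStmt := by
  refine ⟨Jx, Jy, ?_, ?_, ?_, ?_, ?_⟩
  · intro c f hc
    have h := lin_ext (f := Jx c ∘ₗ (Nx + (c : ℂ) • LinearMap.id)) (g := LinearMap.id)
      (fun m a => by
        simp only [LinearMap.comp_apply, LinearMap.add_apply, LinearMap.smul_apply,
          LinearMap.id_apply]
        rw [Nx_monomial, ← add_smul, map_smul, Jx, diag_monomial, smul_smul,
          mul_inv_cancel₀ (add_ne _ _ hc), one_smul]) f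
    exact h
  · intro c f hc
    have h := lin_ext (f := Jy c ∘ₗ (Ny + (c : ℂ) • LinearMap.id)) (g := LinearMap.id)
      (fun m a => by
        simp only [LinearMap.comp_apply, LinearMap.add_apply, LinearMap.smul_apply,
          LinearMap.id_apply]
        rw [Ny_monomial, ← add_smul, map_smul, Jy, diag_monomial, smul_smul,
          mul_inv_cancel₀ (add_ne _ _ hc), one_smul]) f
    exact h
  · intro c f j hc
    have h := lin_ext (f := Jx c ∘ₗ LinearMap.mulLeft ℂ (X (Sum.inl j) : R))
      (g := LinearMap.mulLeft ℂ (X (Sum.inl j) : R) ∘ₗ Jx (c + 1))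
      (fun m a => by
        simp only [LinearMap.comp_apply, LinearMap.mulLeft_apply]
        have e1 : (X (Sum.inl j) : R) * monomial m a = monomial (m + Finsupp.single (Sum.inl j) 1) a := by
          rw [X, monomial_mul, one_mul, add_comm]
        have e2 : degx (m + Finsupp.single (Sum.inl j) 1) = degx m + 1 := by
          unfold degx
          simp [Finset.sum_add_distrib, Finsupp.single_apply]
        rw [Jx, Jx, e1, diag_monomial, diag_monomial, mul_smul_comm, e1, e2]
        push_cast
        congr 2
        ring) f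
    exact h
  · intro c f j hc
    have h := lin_ext (f := Jx c ∘ₗ LinearMap.mulLeft ℂ (X (Sum.inr j) : R))
      (g := LinearMap.mulLeft ℂ (X (Sum.inr j) : R) ∘ₗ Jx c)
      (fun m a => by
        simp only [LinearMap.comp_apply, LinearMap.mulLeft_apply]
        have e1 : (X (Sum.inr j) : R) * monomial m a = monomial (m + Finsupp.single (Sum.inr j) 1) a := by
          rw [X, monomial_mul, one_mul, add_comm]
        have e2 : degx (m + Finsupp.single (Sum.inr j) 1) = degx m := by
          unfold degx
          simp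
        rw [Jx, e1, diag_monomial, diag_monomial, mul_smul_comm, e1, e2]) f
    exact h
  · intro c f j hc
    have h := lin_ext (f := Jx c ∘ₗ (pderiv (Sum.inr j)).toLinearMap)
      (g := (pderiv (Sum.inr j)).toLinearMap ∘ₗ Jx c)
      (fun m a => by
        simp only [LinearMap.comp_apply, Derivation.coeFn_coe]
        have e2 : degx (m - Finsupp.single (Sum.inr j) 1) = degx m := by
          unfold degx
          simp
        rw [pderiv_monomial, Jx, diag_monomial, diag_monomial, Derivation.map_smul, pderiv_monomial, e2]) f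
    exact h

end Pool.Agent.SkewP4.H51
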