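import Pool.Agent.Helper30_SkewP4.Stmts

/-!
# SKEW, module TKO (MP_d1c004_ag): Koszul exactness for `e`
-/

set_option autoImplicit false

open scoped TensorProduct

namespace Pool.Agent.SkewP4.H51

theorem tko (hJ : JopStmt) (hR : OprStmt) (hB : OpbStmt) : TkoStmt := by
  obtain ⟨Jx, -, hJx, -, hx, hy, hp⟩ := hJ
  intro p r m t hr ht hm hE
  set c : ℕ := 4 - r with hc
  have hc1 : 1 ≤ c := by omega
  -- commutation of the inverse with the operators
  have cE : ∀ s : T, LinearMap.rTensor E (Jx c) (opE s) = opE (LinearMap.rTensor E (Jx (c + 1)) s) := by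
    intro s
    induction s using TensorProduct.induction_on with
    | zero => simp
    | add a b ha hb => simp only [map_add, ha, hb]
    | tmul a w =>
      simp only [opE, opPsi, mx, LinearMap.sum_apply, TensorProduct.map_tmul, map_sum,
        LinearMap.rTensor_tmul, LinearMap.mulLeft_apply]
      exact Finset.sum_congr rfl fun j _ => by rw [hx c a j hc1]
  have cK : ∀ (b : ℕ) (s : T), 1 ≤ b →
      LinearMap.rTensor E (Jx b) (opK s) = opK (LinearMap.rTensor E (Jx b) s) := by
    intro b s hb
    induction s using TensorProduct.induction_on with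
    | zero => simp
    | add a b ha hb => simp only [map_add, ha, hb]
    | tmul a w =>
      simp only [opK, opPhi, my, LinearMap.sum_apply, TensorProduct.map_tmul, map_sum,
        LinearMap.rTensor_tmul, LinearMap.mulLeft_apply]
      exact Finset.sum_congr rfl fun j _ => by rw [hy b a j hb]
  have cN : ∀ (b : ℕ) (f : R), 1 ≤ b → Jx b (Ny f) = Ny (Jx b f) := by
    intro b f hb
    unfold Ny
    simp only [LinearMap.sum_apply, LinearMap.comp_apply, map_sum, LinearMap.mulLeft_apply,
      Derivation.coeFn_coe]
    exact Finset.sum_congr rfl fun j _ => by rw [hy b _ j hb, hp b f j hb]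
  have cNy : ∀ (b : ℕ) (s : T), 1 ≤ b →
      LinearMap.rTensor E (Jx b) (opNy s) = opNy (LinearMap.rTensor E (Jx b) s) := by
    intro b s hb
    induction s using TensorProduct.induction_on with
    | zero => simp
    | add a b ha hb => simp only [map_add, ha, hb]
    | tmul a w =>
      simp only [opNy, LinearMap.rTensor_tmul]
      rw [cN b a hb]
  have cJ : ∀ s : T, LinearMap.rTensor E (Jx c) (opNx s + (c : ℂ) • s) = s := by
    intro s
    induction s using TensorProduct.induction_on with
    | zero => simp
    | add a b ha hb =>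
      have h1 : opNx (a + b) + (c : ℂ) • (a + b) =
          (opNx a + (c : ℂ) • a) + (opNx b + (c : ℂ) • b) := by
        rw [map_add, smul_add]; abel
      rw [h1, map_add, ha, hb]
    | tmul a w =>
      rw [opNx, LinearMap.rTensor_tmul, TensorProduct.smul_tmul', ← TensorProduct.add_tmul,
        LinearMap.rTensor_tmul, hJx c a hc1]
  refine ⟨LinearMap.rTensor E (Jx (c + 1)) (opS t), hB.r_mem p r _ _ (hB.S_mem p r t ht), ?_, ?_, ?_⟩
  · rw [← cNy (c + 1) _ (by omega), hR.Ny_S, hm, map_smul, map_smul]
  · rw [← cE]
    have h1 := hB.ES p (r + 1) t ht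
    rw [hE, map_zero, add_zero] at h1
    have h2 : ((5 : ℂ) - ((r + 1 : ℕ) : ℂ)) = (c : ℂ) := by
      rw [hc, Nat.cast_sub (by omega)]
      push_cast
      ring
    rw [h1, h2, cJ]
  · intro hK
    rw [← cK (c + 1) _ (by omega), hR.KS, hK, map_zero, neg_zero, map_zero]

end Pool.Agent.SkewP4.H51
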